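import Mathlib

/-!
# Uniform Taylor expansions of powers (used for CD.FourthCalc)
-/

open MeasureTheory Set Filter Topology Asymptotics

namespace H84FC

/-- one integration step for Taylor expansions of powers -/
lemma rpow_step {n : ℕ} {P R : ℝ → ℝ} {q : ℝ}
    (h : (fun y : ℝ => (1 + y) ^ (q - 1) - P y) =O[𝓝 0] (fun y : ℝ => y ^ n))
    (hR : ∀ y, HasDerivAt R (q * P y) y) (hR0 : R 0 = 1) :
    (fun y : ℝ => (1 + y) ^ q - R y) =O[𝓝 0] (fun y : ℝ => y ^ (n + 1)) := by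
  obtain ⟨C, hC0, hC⟩ := h.exists_nonneg
  rw [isBigOWith_iff] at hC
  have h1 : ∀ᶠ y : ℝ in 𝓝 0, |y| < 1 := by
    have : Metric.ball (0 : ℝ) 1 ∈ 𝓝 (0 : ℝ) := Metric.ball_mem_nhds _ one_pos
    filter_upwards [this] with y hy
    simpa using hy
  obtain ⟨r, hr, hball⟩ := Metric.eventually_nhds_iff_ball.1 (hC.and h1)
  refine IsBigO.of_bound (|q| * C) ?_
  have hr' : Metric.ball (0 : ℝ) r ∈ 𝓝 (0 : ℝ) := Metric.ball_mem_nhds _ hr
  filter_upwards [hr'] with y hy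
  have hy' : |y| < r := by simpa using hy
  have hsub : ∀ s ∈ uIcc (0 : ℝ) y, |s| ≤ |y| := by
    intro s hs
    have := abs_sub_left_of_mem_uIcc hs
    simpa using this
  have hd : ∀ s ∈ uIcc (0 : ℝ) y, HasDerivWithinAt (fun y : ℝ => (1 + y) ^ q - R y)
      (q * ((1 + s) ^ (q - 1) - P s)) (uIcc (0 : ℝ) y) s := by
    intro s hs
    have hs' : |s| < 1 := by
      have : s ∈ Metric.ball (0 : ℝ) r := by simpa using (hsub s hs).trans_lt hy'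
      exact (hball s this).2
    have hpos : 0 < 1 + s := by
      have := (abs_lt.1 hs').1
      linarith
    have e := ((hasDerivAt_id s).const_add 1).rpow_const (p := q) (Or.inl hpos.ne')
    refine ((e.sub (hR s)).congr_deriv ?_).hasDerivWithinAt
    simp only [id]
    ring
  have hb : ∀ s ∈ uIcc (0 : ℝ) y, ‖q * ((1 + s) ^ (q - 1) - P s)‖ ≤ |q| * (C * |y| ^ n) := by
    intro s hs
    have : s ∈ Metric.ball (0 : ℝ) r := by simpa using (hsub s hs).trans_lt hy'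
    have h2 := (hball s this).1
    rw [norm_mul, Real.norm_eq_abs q]
    refine mul_le_mul_of_nonneg_left (h2.trans ?_) (abs_nonneg q)
    refine mul_le_mul_of_nonneg_left ?_ hC0
    rw [norm_pow, Real.norm_eq_abs]
    exact pow_le_pow_left₀ (abs_nonneg s) (hsub s hs) n
  have := (convex_uIcc (0 : ℝ) y).norm_image_sub_le_of_norm_hasDerivWithin_le hd hb
    left_mem_uIcc right_mem_uIcc
  simp only [add_zero, Real.one_rpow, hR0, sub_self, sub_zero] at this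
  refine this.trans (le_of_eq ?_)
  rw [norm_pow, Real.norm_eq_abs]
  ring

lemma rpow_t0 (q : ℝ) : (fun y : ℝ => (1 + y) ^ q - 1) =O[𝓝 0] (fun y : ℝ => y ^ 1) := by
  refine rpow_step (n := 0) (P := fun _ => 0) (R := fun _ => 1) ?_ ?_ rfl
  · simp only [pow_zero, sub_zero]
    have : Tendsto (fun y : ℝ => (1 + y) ^ (q - 1)) (𝓝 0) (𝓝 ((1 + 0) ^ (q - 1))) := by
      have h1 : ContinuousAt (fun y : ℝ => (1 + y) ^ (q - 1)) 0 := by
        refine ContinuousAt.rpow_const (by fun_prop) (Or.inl (by norm_num))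
      exact h1
    exact this.isBigO_one ℝ
  · intro y
    simpa using hasDerivAt_const y (1 : ℝ)

lemma rpow_t1 (q : ℝ) : (fun y : ℝ => (1 + y) ^ q - (1 + q * y)) =O[𝓝 0] (fun y : ℝ => y ^ 2) := by
  refine rpow_step (n := 1) (P := fun _ => 1) (rpow_t0 (q - 1)) ?_ (by ring)
  intro y
  exact (((hasDerivAt_id y).const_mul q).const_add 1)

lemma rpow_t2 (q : ℝ) : (fun y : ℝ => (1 + y) ^ q - (1 + q * y + q * (q - 1) / 2 * y ^ 2)) =O[𝓝 0]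
    (fun y : ℝ => y ^ 3) := by
  refine rpow_step (n := 2) (rpow_t1 (q - 1)) ?_ (by ring)
  intro y
  refine ((((hasDerivAt_id y).const_mul q).const_add 1).add
    ((hasDerivAt_pow 2 y).const_mul _)).congr_deriv ?_
  ring

lemma rpow_t3 (q : ℝ) : (fun y : ℝ => (1 + y) ^ q - (1 + q * y + q * (q - 1) / 2 * y ^ 2 +
    q * (q - 1) * (q - 2) / 6 * y ^ 3)) =O[𝓝 0] (fun y : ℝ => y ^ 4) := by
  refine rpow_step (n := 3) (rpow_t2 (q - 1)) ?_ (by ring)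
  intro y
  refine (((((hasDerivAt_id y).const_mul q).const_add 1).add
    ((hasDerivAt_pow 2 y).const_mul _)).add ((hasDerivAt_pow 3 y).const_mul _)).congr_deriv ?_
  simp only [Nat.cast_ofNat]
  ring

lemma rpow_t4 (q : ℝ) : (fun y : ℝ => (1 + y) ^ q - (1 + q * y + q * (q - 1) / 2 * y ^ 2 +
    q * (q - 1) * (q - 2) / 6 * y ^ 3 + q * (q - 1) * (q - 2) * (q - 3) / 24 * y ^ 4)) =O[𝓝 0]
    (fun y : ℝ => y ^ 5) := by
  refine rpow_step (n := 4) (rpow_t3 (q - 1)) ?_ (by ring)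
  intro y
  refine ((((((hasDerivAt_id y).const_mul q).const_add 1).add
    ((hasDerivAt_pow 2 y).const_mul _)).add ((hasDerivAt_pow 3 y).const_mul _)).add
    ((hasDerivAt_pow 4 y).const_mul _)).congr_deriv ?_
  simp only [Nat.cast_ofNat]
  ring

variable {α : Type*}

/-- the filter `ε → 0+`, uniformly in a parameter in `S` -/
def lf (S : Set α) : Filter (ℝ × α) := 𝓝[>] (0 : ℝ) ×ˢ 𝓟 S

lemma eventually_lf {S : Set α} {p : ℝ × α → Prop} :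
    (∀ᶠ x in lf S, p x) ↔ ∃ ε0 > 0, ∀ ε ∈ Ioo (0 : ℝ) ε0, ∀ a ∈ S, p (ε, a) := by
  unfold lf
  rw [eventually_prod_principal_iff]
  constructor
  · intro h
    obtain ⟨u, hu, hs⟩ := mem_nhdsGT_iff_exists_Ioo_subset.1 h
    exact ⟨u, hu, fun ε hε => hs hε⟩
  · rintro ⟨u, hu, hs⟩
    exact mem_nhdsGT_iff_exists_Ioo_subset.2 ⟨u, hu, fun ε hε => hs ε hε⟩

lemma bigO_iff {S : Set α} {F : ℝ × α → ℝ} {k : ℕ} :
    F =O[lf S] (fun x => x.1 ^ k) ↔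
      ∃ C > 0, ∃ ε0 > 0, ∀ ε ∈ Ioo (0 : ℝ) ε0, ∀ a ∈ S, |F (ε, a)| ≤ C * ε ^ k := by
  constructor
  · intro h
    obtain ⟨C, hC0, hC⟩ := h.exists_pos
    rw [isBigOWith_iff, eventually_lf] at hC
    obtain ⟨ε0, h0, hh⟩ := hC
    refine ⟨C, hC0, ε0, h0, fun ε hε a ha => ?_⟩
    have := hh ε hε a ha
    rw [Real.norm_eq_abs, Real.norm_eq_abs, abs_of_nonneg (pow_nonneg hε.1.le k)] at this
    exact this
  · rintro ⟨C, hC0, ε0, h0, hh⟩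
    refine IsBigO.of_bound C ?_
    rw [eventually_lf]
    refine ⟨ε0, h0, fun ε hε a ha => ?_⟩
    rw [Real.norm_eq_abs, Real.norm_eq_abs, abs_of_nonneg (pow_nonneg hε.1.le k)]
    exact hh ε hε a ha

lemma tendsto_lf {S : Set α} : Tendsto (fun x : ℝ × α => x.1) (lf S) (𝓝 0) := by
  unfold lf
  exact (tendsto_fst).mono_right nhdsWithin_le_nhds

lemma bigO_mono {S : Set α} {F : ℝ × α → ℝ} {k l : ℕ} (h : F =O[lf S] (fun x => x.1 ^ k))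
    (hl : l ≤ k) : F =O[lf S] (fun x => x.1 ^ l) := by
  refine h.trans ?_
  refine IsBigO.of_bound 1 ?_
  rw [eventually_lf]
  refine ⟨1, one_pos, fun ε hε a ha => ?_⟩
  rw [one_mul, norm_pow, norm_pow]
  refine pow_le_pow_of_le_one (norm_nonneg _) ?_ hl
  rw [Real.norm_eq_abs, abs_of_pos hε.1]
  exact hε.2.le

/-- `ε^k` times a continuous function -/
lemma bigO_cont [TopologicalSpace α] {S : Set α} (hS : IsCompact S) {R : ℝ × α → ℝ}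
    (hR : Continuous R) (k : ℕ) : (fun x => x.1 ^ k * R x) =O[lf S] (fun x => x.1 ^ k) := by
  have hc : IsCompact (Icc (0 : ℝ) 1 ×ˢ S) := isCompact_Icc.prod hS
  obtain ⟨C, hC⟩ := hc.exists_bound_of_continuousOn hR.continuousOn
  refine IsBigO.of_bound C ?_
  rw [eventually_lf]
  refine ⟨1, one_pos, fun ε hε a ha => ?_⟩
  have := hC (ε, a) ⟨⟨hε.1.le, hε.2.le⟩, ha⟩
  rw [norm_mul, mul_comm]
  exact mul_le_mul_of_nonneg_right this (norm_nonneg _)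

lemma bigO_cont' [TopologicalSpace α] {S : Set α} (hS : IsCompact S) {F R : ℝ × α → ℝ}
    {k : ℕ} (hR : Continuous R) (hF : ∀ x, F x = x.1 ^ k * R x) :
    F =O[lf S] (fun x => x.1 ^ k) := by
  have : F = fun x => x.1 ^ k * R x := funext hF
  rw [this]
  exact bigO_cont hS hR k


lemma bigO_comp {S : Set α} {Y : ℝ × α → ℝ} {F : ℝ → ℝ} {k j n : ℕ}
    (hY : Y =O[lf S] (fun x => x.1 ^ j)) (hj : 0 < j)
    (hF : F =O[𝓝 0] (fun y : ℝ => y ^ k)) (hn : j * k = n) :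
    (fun x => F (Y x)) =O[lf S] (fun x => x.1 ^ n) := by
  subst hn
  have h1 : Tendsto (fun x : ℝ × α => x.1 ^ j) (lf S) (𝓝 0) := by
    have := (tendsto_lf (S := S)).pow j
    rwa [zero_pow hj.ne'] at this
  have h2 : Tendsto Y (lf S) (𝓝 0) := hY.trans_tendsto h1
  refine (hF.comp_tendsto h2).trans ?_
  have h3 := hY.pow k
  simp only [← pow_mul] at h3
  exact h3

/-- `P ε t` -/
noncomputable def qP (N ε t : ℝ) : ℝ :=
  1 - (N - 1) * ε * t + (N - 1) * (3 * N - 1) / 6 * ε ^ 2 * t ^ 2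

/-- `Q ε t` -/
noncomputable def qQ (ε t : ℝ) : ℝ := 1 + ε ^ 2 * (t ^ 2 - 1) / 6

lemma qP_sub_one (N : ℝ) [TopologicalSpace α] {S : Set α} (hS : IsCompact S) {f : α → ℝ}
    (hf : Continuous f) :
    (fun x : ℝ × α => - (N - 1) * (x.1 * f x.2) +
      (N - 1) * (3 * N - 1) / 6 * (x.1 * f x.2) ^ 2) =O[lf S] (fun x => x.1 ^ 1) := by
  refine bigO_cont' hS (R := fun x => - (N - 1) * f x.2 +
      (N - 1) * (3 * N - 1) / 6 * x.1 * f x.2 ^ 2) (by fun_prop) ?_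
  intro x
  ring

lemma qP_eq (N ε t : ℝ) : qP N ε t =
    1 + (- (N - 1) * (ε * t) + (N - 1) * (3 * N - 1) / 6 * (ε * t) ^ 2) := by
  unfold qP
  ring

lemma qP_pow4 {N : ℝ} (hN : 1 < N) [TopologicalSpace α] {S : Set α} (hS : IsCompact S) {f : α → ℝ}
    (hf : Continuous f) :
    (fun x : ℝ × α => qP N x.1 (f x.2) ^ (N / (N - 1)) -
      (1 - N * x.1 * f x.2 + N * (3 * N + 2) / 6 * x.1 ^ 2 * f x.2 ^ 2 -
        N * (2 * N + 1) / 6 * x.1 ^ 3 * f x.2 ^ 3 +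
        N * (-3 * N ^ 2 + 15 * N + 7) / 72 * x.1 ^ 4 * f x.2 ^ 4)) =O[lf S] (fun x => x.1 ^ 5) := by
  have h1 := bigO_comp (n := 5) (qP_sub_one N hS hf) one_pos (rpow_t4 (N / (N - 1))) rfl
  have hN1 : N - 1 ≠ 0 := by linarith
  obtain ⟨q, hq⟩ : ∃ q, q = N / (N - 1) := ⟨_, rfl⟩
  obtain ⟨η, hη⟩ : ∃ η, η = (N - 1) * (3 * N - 1) / 6 := ⟨_, rfl⟩
  rw [← hq, ← hη] at h1
  rw [← hq]
  have e2 : q - 1 = 1 / (N - 1) := by rw [hq]; field_simp; ring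
  have e3 : q - 2 = (2 - N) / (N - 1) := by rw [hq]; field_simp; ring
  have e4 : q - 3 = (3 - 2 * N) / (N - 1) := by rw [hq]; field_simp; ring
  obtain ⟨c2, hc2⟩ : ∃ c, c = q * (q - 1) / 2 := ⟨_, rfl⟩
  obtain ⟨c3, hc3⟩ : ∃ c, c = q * (q - 1) * (q - 2) / 6 := ⟨_, rfl⟩
  obtain ⟨c4, hc4⟩ : ∃ c, c = q * (q - 1) * (q - 2) * (q - 3) / 24 := ⟨_, rfl⟩
  rw [← hc2, ← hc3, ← hc4] at h1
  have h2 := bigO_cont hS (k := 5) (R := fun x : ℝ × α =>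
    f x.2 ^ 5 * (c3 * (-3 * (N - 1) * η ^ 2) + c4 * (-4 * (N - 1) ^ 3 * η)) +
      x.1 * f x.2 ^ 6 * (c3 * η ^ 3 + 6 * c4 * (N - 1) ^ 2 * η ^ 2) -
      4 * c4 * (N - 1) * η ^ 3 * x.1 ^ 2 * f x.2 ^ 7 + c4 * η ^ 4 * x.1 ^ 3 * f x.2 ^ 8)
    (by fun_prop)
  have k1 : q * (N - 1) = N := by rw [hq]; field_simp
  have k2 : q * η + c2 * (N - 1) ^ 2 = N * (3 * N + 2) / 6 := by
    rw [hc2, e2, hη, hq]; field_simp; ring
  have k3 : 2 * c2 * (N - 1) * η + c3 * (N - 1) ^ 3 = N * (2 * N + 1) / 6 := by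
    rw [hc2, hc3, e2, e3, hη, hq]; field_simp; ring
  have k4 : c2 * η ^ 2 + 3 * c3 * (N - 1) ^ 2 * η + c4 * (N - 1) ^ 4 =
      N * (-3 * N ^ 2 + 15 * N + 7) / 72 := by
    rw [hc2, hc3, hc4, e2, e3, e4, hη, hq]; field_simp; ring
  refine (h1.add h2).congr_left ?_
  intro x
  rw [qP_eq, ← hη, ← k2, ← k3, ← k4]
  linear_combination (x.1 * f x.2) * k1


lemma bigO_mul_sub {S : Set α} {F F0 G G0 : ℝ × α → ℝ} {k : ℕ}
    (hF : (fun x => F x - F0 x) =O[lf S] (fun x => x.1 ^ k))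
    (hG : (fun x => G x - G0 x) =O[lf S] (fun x => x.1 ^ k))
    (hF0 : F0 =O[lf S] (fun x => x.1 ^ 0)) (hG0 : G0 =O[lf S] (fun x => x.1 ^ 0)) :
    (fun x => F x * G x - F0 x * G0 x) =O[lf S] (fun x => x.1 ^ k) := by
  have hG1 : G =O[lf S] (fun x => x.1 ^ 0) := by
    refine ((bigO_mono hG (Nat.zero_le k)).add hG0).congr_left ?_
    intro x
    ring
  have h1 := hF.mul hG1
  have h2 := hF0.mul hG
  have h3 : (fun x : ℝ × α => x.1 ^ k * x.1 ^ 0) = fun x => x.1 ^ k := by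
    funext x; simp
  have h4 : (fun x : ℝ × α => x.1 ^ 0 * x.1 ^ k) = fun x => x.1 ^ k := by
    funext x; simp
  rw [h3] at h1
  rw [h4] at h2
  refine (h1.add h2).congr_left ?_
  intro x
  ring

lemma qQ_sub_one [TopologicalSpace α] {S : Set α} (hS : IsCompact S) {f : α → ℝ}
    (hf : Continuous f) :
    (fun x : ℝ × α => x.1 ^ 2 * (f x.2 ^ 2 - 1) / 6) =O[lf S] (fun x => x.1 ^ 2) := by
  refine bigO_cont' hS (R := fun x => (f x.2 ^ 2 - 1) / 6) (by fun_prop) ?_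
  intro x
  ring

lemma qQ_pow (p : ℝ) [TopologicalSpace α] {S : Set α} (hS : IsCompact S) {f : α → ℝ}
    (hf : Continuous f) :
    (fun x : ℝ × α => qQ x.1 (f x.2) ^ p -
      (1 + p * (x.1 ^ 2 * (f x.2 ^ 2 - 1) / 6) + p * (p - 1) / 2 *
        (x.1 ^ 2 * (f x.2 ^ 2 - 1) / 6) ^ 2)) =O[lf S] (fun x => x.1 ^ 6) := by
  have h1 := bigO_comp (n := 6) (qQ_sub_one hS hf) two_pos (rpow_t2 p) rfl
  exact h1

section meas
variable {X : Type*} [MeasurableSpace X] {m : Measure X} [IsProbabilityMeasure m]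

lemma integral_bigO {B : ℝ} {f : X → ℝ} (hb : ∀ x, |f x| ≤ B) {F : ℝ × ℝ → ℝ} {k : ℕ}
    (hF : F =O[lf (Icc (-B) B)] (fun x => x.1 ^ k)) :
    (fun x : ℝ × Unit => ∫ y, F (x.1, f y) ∂m) =O[lf (univ : Set Unit)] (fun x => x.1 ^ k) := by
  rw [bigO_iff] at hF ⊢
  obtain ⟨C, hC, ε0, h0, hh⟩ := hF
  refine ⟨C, hC, ε0, h0, fun ε hε a _ => ?_⟩
  have := norm_integral_le_of_norm_le_const (μ := m) (f := fun y => F (ε, f y)) (C := C * ε ^ k)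
    (Eventually.of_forall fun y => hh ε hε (f y) (abs_le.1 (hb y)))
  simpa using this

lemma integrable_of_bdd {f : X → ℝ} (hf : Measurable f) {B : ℝ} (hb : ∀ x, |f x| ≤ B) :
    Integrable f m :=
  Integrable.of_bound hf.aestronglyMeasurable B (Eventually.of_forall hb)

lemma integrable_pow {f : X → ℝ} (hf : Measurable f) {B : ℝ} (hb : ∀ x, |f x| ≤ B) (n : ℕ) :
    Integrable (fun x => f x ^ n) m := by
  refine integrable_of_bdd (hf.pow_const n) (B := B ^ n) fun x => ?_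
  rw [abs_pow]
  exact pow_le_pow_left₀ (abs_nonneg _) (hb x) n

/-- a continuous function of a bounded function is integrable -/
lemma integrable_comp_bdd {f : X → ℝ} (hf : Measurable f) {B : ℝ} (hb : ∀ x, |f x| ≤ B)
    {F : ℝ → ℝ} (hF : Measurable F) {C : ℝ} (hC : ∀ t ∈ Icc (-B) B, |F t| ≤ C) :
    Integrable (fun x => F (f x)) m :=
  integrable_of_bdd (hF.comp hf) fun x => hC _ (abs_le.1 (hb x))


lemma integrable_rpow_comp {f : X → ℝ} (hf : Measurable f) {B : ℝ} (hb : ∀ x, |f x| ≤ B)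
    {F : ℝ → ℝ} (hF : Continuous F) {r : ℝ} (hr : 0 ≤ r) :
    Integrable (fun x => F (f x) ^ r) m := by
  obtain ⟨K, hK⟩ := (isCompact_Icc (a := -B) (b := B)).exists_bound_of_continuousOn
    hF.continuousOn
  refine integrable_comp_bdd hf hb (F := fun t => F t ^ r) (hF.measurable.pow_const r)
    (C := K ^ r) fun t ht => ?_
  refine (Real.abs_rpow_le_abs_rpow _ _).trans ?_
  exact Real.rpow_le_rpow (abs_nonneg _) (hK t ht) hr

lemma integral_poly4 {f : X → ℝ} (hf : Measurable f) {B : ℝ} (hb : ∀ x, |f x| ≤ B)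
    (c0 c1 c2 c3 c4 : ℝ) :
    ∫ x, (c0 + c1 * f x + c2 * f x ^ 2 + c3 * f x ^ 3 + c4 * f x ^ 4) ∂m =
      c0 + c1 * ∫ x, f x ∂m + c2 * ∫ x, f x ^ 2 ∂m + c3 * ∫ x, f x ^ 3 ∂m +
        c4 * ∫ x, f x ^ 4 ∂m := by
  have i1 : Integrable f m := integrable_of_bdd hf hb
  have i2 := integrable_pow (m := m) hf hb 2
  have i3 := integrable_pow (m := m) hf hb 3
  have i4 := integrable_pow (m := m) hf hb 4
  have i0 : Integrable (fun _ : X => c0) m := integrable_const _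
  have j1 : Integrable (fun x => c0 + c1 * f x) m := i0.add (i1.const_mul c1)
  have j2 : Integrable (fun x => c0 + c1 * f x + c2 * f x ^ 2) m := j1.add (i2.const_mul c2)
  have j3 : Integrable (fun x => c0 + c1 * f x + c2 * f x ^ 2 + c3 * f x ^ 3) m :=
    j2.add (i3.const_mul c3)
  rw [integral_add j3 (i4.const_mul c4), integral_add j2 (i3.const_mul c3),
    integral_add j1 (i2.const_mul c2), integral_add i0 (i1.const_mul c1)]
  simp [integral_const_mul]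

lemma integral_poly4' {f : X → ℝ} (hf : Measurable f) {B : ℝ} (hb : ∀ x, |f x| ≤ B)
    (c0 c1 c2 c3 c4 : ℝ) :
    Integrable (fun x => c0 + c1 * f x + c2 * f x ^ 2 + c3 * f x ^ 3 + c4 * f x ^ 4) m := by
  have i1 : Integrable f m := integrable_of_bdd hf hb
  have i2 := integrable_pow (m := m) hf hb 2
  have i3 := integrable_pow (m := m) hf hb 3
  have i4 := integrable_pow (m := m) hf hb 4
  have i0 : Integrable (fun _ : X => c0) m := integrable_const _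
  exact (((i0.add (i1.const_mul c1)).add (i2.const_mul c2)).add (i3.const_mul c3)).add
    (i4.const_mul c4)

lemma M0_exp {N B : ℝ} (hN : 1 < N) {f : X → ℝ} (hf : Measurable f)
    (hb : ∀ x, |f x| ≤ B) (h1 : ∫ x, f x ∂m = 0) (h2 : ∫ x, f x ^ 2 ∂m = 1) :
    (fun x : ℝ × Unit => ∫ y, qP N x.1 (f y) ^ (N / (N - 1)) ∂m -
      (1 + N * (3 * N + 2) / 6 * x.1 ^ 2 - N * (2 * N + 1) / 6 * (∫ y, f y ^ 3 ∂m) * x.1 ^ 3 +
        N * (-3 * N ^ 2 + 15 * N + 7) / 72 * (∫ y, f y ^ 4 ∂m) * x.1 ^ 4)) =O[lf (univ : Set Unit)]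
      (fun x => x.1 ^ 5) := by
  have h5 := integral_bigO (m := m) hb (qP_pow4 hN (isCompact_Icc (a := -B) (b := B))
    (f := fun t : ℝ => t) continuous_id)
  refine h5.congr_left ?_
  intro x
  have hi : Integrable (fun y => qP N x.1 (f y) ^ (N / (N - 1))) m := by
    refine integrable_rpow_comp hf hb (F := fun t => qP N x.1 t) ?_ (by
      have : 0 < N - 1 := by linarith
      positivity)
    unfold qP
    fun_prop
  have hp := integral_poly4 (m := m) hf hb 1 (-(N * x.1)) (N * (3 * N + 2) / 6 * x.1 ^ 2)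
    (-(N * (2 * N + 1) / 6 * x.1 ^ 3)) (N * (-3 * N ^ 2 + 15 * N + 7) / 72 * x.1 ^ 4)
  have hpi := integral_poly4' (m := m) hf hb 1 (-(N * x.1)) (N * (3 * N + 2) / 6 * x.1 ^ 2)
    (-(N * (2 * N + 1) / 6 * x.1 ^ 3)) (N * (-3 * N ^ 2 + 15 * N + 7) / 72 * x.1 ^ 4)
  have e : (fun y => qP N x.1 (f y) ^ (N / (N - 1)) -
      (1 - N * x.1 * f y + N * (3 * N + 2) / 6 * x.1 ^ 2 * f y ^ 2 -
        N * (2 * N + 1) / 6 * x.1 ^ 3 * f y ^ 3 +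
        N * (-3 * N ^ 2 + 15 * N + 7) / 72 * x.1 ^ 4 * f y ^ 4)) =
      fun y => qP N x.1 (f y) ^ (N / (N - 1)) - (1 + -(N * x.1) * f y +
        N * (3 * N + 2) / 6 * x.1 ^ 2 * f y ^ 2 + -(N * (2 * N + 1) / 6 * x.1 ^ 3) * f y ^ 3 +
        N * (-3 * N ^ 2 + 15 * N + 7) / 72 * x.1 ^ 4 * f y ^ 4) := by
    funext y
    ring
  rw [e, integral_sub hi hpi, hp, h1, h2]
  ring

lemma Q_exp {B : ℝ} {p : ℝ} (hp0 : 0 ≤ p) {f : X → ℝ} (hf : Measurable f)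
    (hb : ∀ x, |f x| ≤ B) (h2 : ∫ x, f x ^ 2 ∂m = 1) :
    (fun x : ℝ × Unit => ∫ y, qQ x.1 (f y) ^ p ∂m -
      (1 - p * (1 - p) / 72 * x.1 ^ 4 * ((∫ y, f y ^ 4 ∂m) - 1))) =O[lf (univ : Set Unit)]
      (fun x => x.1 ^ 5) := by
  have h5 := bigO_mono (integral_bigO (m := m) hb (qQ_pow p (isCompact_Icc (a := -B) (b := B))
    (f := fun t : ℝ => t) continuous_id)) (show 5 ≤ 6 by norm_num)
  refine h5.congr_left ?_
  intro x
  have hi : Integrable (fun y => qQ x.1 (f y) ^ p) m := by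
    refine integrable_rpow_comp hf hb (F := fun t => qQ x.1 t) ?_ hp0
    unfold qQ
    fun_prop
  have hp := integral_poly4 (m := m) hf hb (1 - p * x.1 ^ 2 / 6 + p * (p - 1) / 72 * x.1 ^ 4) 0
    (p * x.1 ^ 2 / 6 - p * (p - 1) / 36 * x.1 ^ 4) 0 (p * (p - 1) / 72 * x.1 ^ 4)
  have hpi := integral_poly4' (m := m) hf hb (1 - p * x.1 ^ 2 / 6 + p * (p - 1) / 72 * x.1 ^ 4) 0
    (p * x.1 ^ 2 / 6 - p * (p - 1) / 36 * x.1 ^ 4) 0 (p * (p - 1) / 72 * x.1 ^ 4)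
  have e : (fun y => qQ x.1 (f y) ^ p - (1 + p * (x.1 ^ 2 * (f y ^ 2 - 1) / 6) + p * (p - 1) / 2 *
        (x.1 ^ 2 * (f y ^ 2 - 1) / 6) ^ 2)) =
      fun y => qQ x.1 (f y) ^ p - ((1 - p * x.1 ^ 2 / 6 + p * (p - 1) / 72 * x.1 ^ 4) +
        0 * f y + (p * x.1 ^ 2 / 6 - p * (p - 1) / 36 * x.1 ^ 4) * f y ^ 2 + 0 * f y ^ 3 +
        (p * (p - 1) / 72 * x.1 ^ 4) * f y ^ 4) := by
    funext y
    ring
  rw [e, integral_sub hi hpi, hp, h2]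
  ring

lemma M0p_exp {M : ℝ → ℝ} {A2 A3 A4 p : ℝ}
    (hM : (fun x : ℝ × Unit => M x.1 - (1 + A2 * x.1 ^ 2 + A3 * x.1 ^ 3 + A4 * x.1 ^ 4))
      =O[lf (univ : Set Unit)] (fun x => x.1 ^ 5)) :
    (fun x : ℝ × Unit => M x.1 ^ p - (1 + p * A2 * x.1 ^ 2 + p * A3 * x.1 ^ 3 +
      (p * A4 + p * (p - 1) / 2 * A2 ^ 2) * x.1 ^ 4)) =O[lf (univ : Set Unit)]
      (fun x => x.1 ^ 5) := by
  have hδ : (fun x : ℝ × Unit => M x.1 - 1) =O[lf (univ : Set Unit)] (fun x => x.1 ^ 2) := by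
    have h0 := bigO_cont (α := Unit) isCompact_univ (k := 2)
      (R := fun x : ℝ × Unit => A2 + A3 * x.1 + A4 * x.1 ^ 2) (by fun_prop)
    refine ((bigO_mono hM (show 2 ≤ 5 by norm_num)).add h0).congr_left ?_
    intro x
    ring
  have h1 := bigO_mono (bigO_comp (n := 6) hδ two_pos (rpow_t2 p) rfl) (show 5 ≤ 6 by norm_num)
  have hδ0 : (fun x : ℝ × Unit => A2 * x.1 ^ 2 + A3 * x.1 ^ 3 + A4 * x.1 ^ 4)
      =O[lf (univ : Set Unit)] (fun x => x.1 ^ 0) :=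
    bigO_cont' (α := Unit) isCompact_univ
      (R := fun x : ℝ × Unit => A2 * x.1 ^ 2 + A3 * x.1 ^ 3 + A4 * x.1 ^ 4) (by fun_prop)
      (fun x => by ring)
  have h2' : (fun x : ℝ × Unit => (M x.1 - 1) - (A2 * x.1 ^ 2 + A3 * x.1 ^ 3 + A4 * x.1 ^ 4))
      =O[lf (univ : Set Unit)] (fun x => x.1 ^ 5) := by
    refine hM.congr_left ?_
    intro x
    ring
  have h2 := bigO_mul_sub h2' h2' hδ0 hδ0
  have h3 := bigO_cont (α := Unit) isCompact_univ (k := 5)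
      (R := fun x : ℝ × Unit => p * (p - 1) / 2 * (2 * A2 * A3 + (A3 ^ 2 + 2 * A2 * A4) * x.1 +
        2 * A3 * A4 * x.1 ^ 2 + A4 ^ 2 * x.1 ^ 3)) (by fun_prop)
  refine (((h1.add (hM.const_mul_left p)).add (h2.const_mul_left (p * (p - 1) / 2))).add
    h3).congr_left ?_
  intro x
  have : (1 + (M x.1 - 1)) = M x.1 := by ring
  simp only [this]
  ring


lemma ent_exp {N B : ℝ} (hN : 1 < N) {f : X → ℝ} (hf : Measurable f)
    (hb : ∀ x, |f x| ≤ B) (h1 : ∫ x, f x ∂m = 0) (h2 : ∫ x, f x ^ 2 ∂m = 1) :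
    (fun x : ℝ × Unit => (∫ y, qP N x.1 (f y) ^ (N / (N - 1)) ∂m) ^ (1 - 1 / N) *
          ∫ y, qQ x.1 (f y) ^ (1 - 1 / N) ∂m -
        (1 + (N - 1) * (3 * N - 1) / 6 * x.1 ^ 2) -
        ((N - 1) / 2 * x.1 ^ 2 - (N - 1) * (2 * N + 1) / 6 * (∫ y, f y ^ 3 ∂m) * x.1 ^ 3 +
          (N - 1) / 72 * ((-3 * N ^ 2 + 15 * N + 7) * (∫ y, f y ^ 4 ∂m) - (3 * N + 2) ^ 2 -
            ((∫ y, f y ^ 4 ∂m) - 1) / N ^ 2) * x.1 ^ 4)) =O[lf (univ : Set Unit)]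
      (fun x => x.1 ^ 5) := by
  have hN0 : N ≠ 0 := by linarith
  have hM := M0_exp hN hf hb h1 h2
  have hp0 : 0 ≤ 1 - 1 / N := by
    rw [sub_nonneg, div_le_one (by linarith)]
    exact hN.le
  have hQ := Q_exp hp0 hf hb h2
  generalize (∫ y, f y ^ 3 ∂m) = m3 at *
  generalize (∫ y, f y ^ 4 ∂m) = m4 at *
  obtain ⟨A2, hA2⟩ : ∃ A, A = N * (3 * N + 2) / 6 := ⟨_, rfl⟩
  obtain ⟨A3, hA3⟩ : ∃ A, A = -(N * (2 * N + 1) / 6 * m3) := ⟨_, rfl⟩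
  obtain ⟨A4, hA4⟩ : ∃ A, A = N * (-3 * N ^ 2 + 15 * N + 7) / 72 * m4 := ⟨_, rfl⟩
  obtain ⟨p, hp⟩ : ∃ p, p = 1 - 1 / N := ⟨_, rfl⟩
  rw [← hp] at hQ
  rw [← hp]
  have hM' : (fun x : ℝ × Unit => ∫ y, qP N x.1 (f y) ^ (N / (N - 1)) ∂m -
      (1 + A2 * x.1 ^ 2 + A3 * x.1 ^ 3 + A4 * x.1 ^ 4)) =O[lf (univ : Set Unit)]
      (fun x => x.1 ^ 5) := by
    refine hM.congr_left ?_
    intro x
    rw [hA2, hA3, hA4]
    ring
  have hMp := M0p_exp (M := fun ε => ∫ y, qP N ε (f y) ^ (N / (N - 1)) ∂m) (p := p) hM'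
  have hF0 : (fun x : ℝ × Unit => 1 + p * A2 * x.1 ^ 2 + p * A3 * x.1 ^ 3 +
      (p * A4 + p * (p - 1) / 2 * A2 ^ 2) * x.1 ^ 4) =O[lf (univ : Set Unit)]
      (fun x => x.1 ^ 0) :=
    bigO_cont' (α := Unit) isCompact_univ
      (R := fun x : ℝ × Unit => 1 + p * A2 * x.1 ^ 2 + p * A3 * x.1 ^ 3 +
      (p * A4 + p * (p - 1) / 2 * A2 ^ 2) * x.1 ^ 4) (by fun_prop)
      (fun x => by ring)
  have hG0 : (fun x : ℝ × Unit => 1 - p * (1 - p) / 72 * x.1 ^ 4 * (m4 - 1))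
      =O[lf (univ : Set Unit)] (fun x => x.1 ^ 0) :=
    bigO_cont' (α := Unit) isCompact_univ
      (R := fun x : ℝ × Unit => 1 - p * (1 - p) / 72 * x.1 ^ 4 * (m4 - 1)) (by fun_prop)
      (fun x => by ring)
  have h3 := bigO_mul_sub hMp hQ hF0 hG0
  have h4 := bigO_cont (α := Unit) isCompact_univ (k := 5)
      (R := fun x : ℝ × Unit => -(p * (1 - p) / 72 * (m4 - 1)) * (p * A2 * x.1 +
        p * A3 * x.1 ^ 2 + (p * A4 + p * (p - 1) / 2 * A2 ^ 2) * x.1 ^ 3)) (by fun_prop)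
  refine (h3.add h4).congr_left ?_
  intro x
  have k1 : p * A2 = (N - 1) * (3 * N - 1) / 6 + (N - 1) / 2 := by
    rw [hp, hA2]; field_simp; ring
  have k2 : p * A3 = - ((N - 1) * (2 * N + 1) / 6 * m3) := by
    rw [hp, hA3]; field_simp
  have k3 : p * A4 + p * (p - 1) / 2 * A2 ^ 2 - p * (1 - p) / 72 * (m4 - 1) =
      (N - 1) / 72 * ((-3 * N ^ 2 + 15 * N + 7) * m4 - (3 * N + 2) ^ 2 -
            (m4 - 1) / N ^ 2) := by
    rw [hp, hA4, hA2]; field_simp; ring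
  linear_combination (-x.1 ^ 2) * k1 - x.1 ^ 3 * k2 - x.1 ^ 4 * k3

end meas

lemma bigO_inv {S : Set α} {D : ℝ × α → ℝ} (hD : (fun x => D x - 1) =O[lf S] (fun x => x.1 ^ 1)) :
    (fun x => (D x)⁻¹) =O[lf S] (fun x => x.1 ^ 0) := by
  have h1 : Tendsto (fun x : ℝ × α => x.1 ^ 1) (lf S) (𝓝 0) := by
    simpa using tendsto_lf (S := S)
  have h2 : Tendsto (fun x => D x - 1) (lf S) (𝓝 0) := hD.trans_tendsto h1
  have h3 : Tendsto D (lf S) (𝓝 1) := by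
    have := h2.add_const 1
    simpa using this
  have h4 := (h3.inv₀ one_ne_zero).isBigO_one ℝ
  simpa using h4

lemma u0_exp {N : ℝ} (hN : 1 < N) [TopologicalSpace α] {S : Set α} (hS : IsCompact S) {f : α → ℝ}
    (hf : Continuous f) :
    (fun x : ℝ × α => qP N x.1 (f x.2) ^ (-(1 / (N - 1))) -
      (1 + x.1 * f x.2 + x.1 ^ 2 * f x.2 ^ 2 / 6)) =O[lf S] (fun x => x.1 ^ 3) := by
  have h1 := bigO_comp (n := 3) (qP_sub_one N hS hf) one_pos (rpow_t2 (-(1 / (N - 1)))) rfl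
  have hN1 : N - 1 ≠ 0 := by linarith
  obtain ⟨q, hq⟩ : ∃ q, q = -(1 / (N - 1)) := ⟨_, rfl⟩
  obtain ⟨η, hη⟩ : ∃ η, η = (N - 1) * (3 * N - 1) / 6 := ⟨_, rfl⟩
  rw [← hq, ← hη] at h1
  rw [← hq]
  have h2 := bigO_cont hS (k := 3) (R := fun x : ℝ × α =>
    q * (q - 1) / 2 * (-2 * (N - 1) * η * f x.2 ^ 3 + η ^ 2 * x.1 * f x.2 ^ 4))
    (by fun_prop)
  have k1 : q * (N - 1) = -1 := by rw [hq]; field_simp
  have k2 : q * η + q * (q - 1) / 2 * (N - 1) ^ 2 = 1 / 6 := by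
    rw [hη, hq]; field_simp; ring
  refine (h1.add h2).congr_left ?_
  intro x
  rw [qP_eq, ← hη]
  linear_combination (x.1 * f x.2) * k1 - (x.1 * f x.2) ^ 2 * k2

lemma u1_exp {N : ℝ} (hN : 1 < N) [TopologicalSpace α] {S : Set α} (hS : IsCompact S)
    {f θ : α → ℝ} (hf : Continuous f) (hθ : Continuous θ) :
    (fun x : ℝ × α => ((1 + N * (3 * N + 2) / 6 * x.1 ^ 2 + θ x.2 * x.1 ^ 3) *
      qQ x.1 (f x.2)) ^ (-(1 / N)) -
      (1 - (3 * N + 2) / 6 * x.1 ^ 2 - (f x.2 ^ 2 - 1) / (6 * N) * x.1 ^ 2)) =O[lf S]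
      (fun x => x.1 ^ 3) := by
  have hN0 : N ≠ 0 := by linarith
  obtain ⟨A2, hA2⟩ : ∃ A, A = N * (3 * N + 2) / 6 := ⟨_, rfl⟩
  rw [← hA2]
  have hY : (fun x : ℝ × α => A2 * x.1 ^ 2 + θ x.2 * x.1 ^ 3 +
      (1 + A2 * x.1 ^ 2 + θ x.2 * x.1 ^ 3) * (x.1 ^ 2 * (f x.2 ^ 2 - 1) / 6)) =O[lf S]
      (fun x => x.1 ^ 2) := by
    refine bigO_cont' hS (R := fun x : ℝ × α => A2 + θ x.2 * x.1 +
      (1 + A2 * x.1 ^ 2 + θ x.2 * x.1 ^ 3) * ((f x.2 ^ 2 - 1) / 6)) (by fun_prop) ?_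
    intro x
    ring
  have h1 := bigO_mono (bigO_comp (n := 4) hY two_pos (rpow_t1 (-(1 / N))) rfl)
    (show 3 ≤ 4 by norm_num)
  have h2 := bigO_cont hS (k := 3) (R := fun x : ℝ × α =>
    -(1 / N) * (θ x.2 + (A2 * x.1 + θ x.2 * x.1 ^ 2) * ((f x.2 ^ 2 - 1) / 6)))
    (by fun_prop)
  refine (h1.add h2).congr_left ?_
  intro x
  have e : (1 + A2 * x.1 ^ 2 + θ x.2 * x.1 ^ 3) * qQ x.1 (f x.2) = 1 + (A2 * x.1 ^ 2 +
      θ x.2 * x.1 ^ 3 + (1 + A2 * x.1 ^ 2 + θ x.2 * x.1 ^ 3) *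
        (x.1 ^ 2 * (f x.2 ^ 2 - 1) / 6)) := by
    unfold qQ
    ring
  rw [e]
  have k1 : (1 / N) * A2 = (3 * N + 2) / 6 := by rw [hA2]; field_simp
  have k2 : (1 / N) * (f x.2 ^ 2 - 1) / 6 = (f x.2 ^ 2 - 1) / (6 * N) := by field_simp
  linear_combination x.1 ^ 2 * k1 - x.1 ^ 2 * k2

lemma w_exp {N : ℝ} (hN : 1 < N) [TopologicalSpace α] {S : Set α} (hS : IsCompact S)
    {f g θ : α → ℝ} (hf : Continuous f) (hg : Continuous g) (hθ : Continuous θ) :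
    (fun x : ℝ × α => (((1 + N * (3 * N + 2) / 6 * x.1 ^ 2 + θ x.2 * x.1 ^ 3) *
      qQ x.1 (g x.2)) ^ (-(1 / N)) + 2 * qP N x.1 (f x.2) ^ (-(1 / (N - 1)))) / 3 -
      (1 + 2 / 3 * (x.1 * f x.2) + (f x.2 ^ 2 / 9 - (3 * N + 2) / 18 -
        (g x.2 ^ 2 - 1) / (18 * N)) * x.1 ^ 2)) =O[lf S] (fun x => x.1 ^ 3) := by
  have hN0 : N ≠ 0 := by linarith
  have h1 := u1_exp hN hS hg hθ
  have h0 := u0_exp hN hS hf
  refine ((h1.const_mul_left (1 / 3)).add (h0.const_mul_left (2 / 3))).congr_left ?_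
  intro x
  field_simp
  ring

lemma V_exp {N : ℝ} (hN : 1 < N) [TopologicalSpace α] {S : Set α} (hS : IsCompact S)
    {f g θ : α → ℝ} (hf : Continuous f) (hg : Continuous g) (hθ : Continuous θ) :
    (fun x : ℝ × α => (x.1 - (3 * N - 1) / 3 * x.1 ^ 2 * f x.2) ^ 2 /
      (qP N x.1 (f x.2) ^ (N / (N - 1)) *
        ((((1 + N * (3 * N + 2) / 6 * x.1 ^ 2 + θ x.2 * x.1 ^ 3) *
      qQ x.1 (g x.2)) ^ (-(1 / N)) + 2 * qP N x.1 (f x.2) ^ (-(1 / (N - 1)))) / 3)) -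
      x.1 ^ 2 * (1 - N * x.1 * f x.2 + x.1 ^ 2 * (-(N * (3 * N - 2) / 6) * f x.2 ^ 2 +
        g x.2 ^ 2 / (18 * N) + (3 * N + 2) / 18 - 1 / (18 * N)))) =O[lf S]
        (fun x => x.1 ^ 5) := by
  have hN0 : N ≠ 0 := by linarith
  have hw := w_exp hN hS hf hg hθ
  have hP := qP_pow4 hN hS hf
  obtain ⟨W, hW⟩ : ∃ W : ℝ × α → ℝ, W = fun x : ℝ × α => (((1 + N * (3 * N + 2) / 6 * x.1 ^ 2 +
      θ x.2 * x.1 ^ 3) * qQ x.1 (g x.2)) ^ (-(1 / N)) +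
        2 * qP N x.1 (f x.2) ^ (-(1 / (N - 1)))) / 3 := ⟨_, rfl⟩
  obtain ⟨R, hR⟩ : ∃ R : ℝ × α → ℝ, R = fun x : ℝ × α => qP N x.1 (f x.2) ^ (N / (N - 1)) :=
    ⟨_, rfl⟩
  obtain ⟨A2, hA2⟩ : ∃ A, A = N * (3 * N + 2) / 6 := ⟨_, rfl⟩
  obtain ⟨w2, hw2⟩ : ∃ w2 : α → ℝ, w2 = fun a => f a ^ 2 / 9 - (3 * N + 2) / 18 -
        (g a ^ 2 - 1) / (18 * N) := ⟨_, rfl⟩
  have hw2c : Continuous w2 := by rw [hw2]; fun_prop
  have hW0 : (fun x : ℝ × α => W x - (1 + 2 / 3 * (x.1 * f x.2) + w2 x.2 * x.1 ^ 2)) =O[lf S]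
      (fun x => x.1 ^ 3) := by rw [hW, hw2]; exact hw
  have hR0 : (fun x : ℝ × α => R x - (1 - N * (x.1 * f x.2) + A2 * (x.1 * f x.2) ^ 2)) =O[lf S]
      (fun x => x.1 ^ 3) := by
    have h2 := bigO_cont hS (k := 3) (R := fun x : ℝ × α => - (N * (2 * N + 1) / 6) * f x.2 ^ 3 +
        N * (-3 * N ^ 2 + 15 * N + 7) / 72 * x.1 * f x.2 ^ 4) (by fun_prop)
    refine ((bigO_mono hP (show 3 ≤ 5 by norm_num)).add h2).congr_left ?_
    intro x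
    rw [hR, hA2]
    ring
  have hc1 : (fun x : ℝ × α => 1 + 2 / 3 * (x.1 * f x.2) + w2 x.2 * x.1 ^ 2) =O[lf S]
      (fun x => x.1 ^ 0) :=
    bigO_cont' hS (R := fun x : ℝ × α => 1 + 2 / 3 * (x.1 * f x.2) + w2 x.2 * x.1 ^ 2)
      (by fun_prop) (fun x => by ring)
  have hc2 : (fun x : ℝ × α => 1 - N * (x.1 * f x.2) + A2 * (x.1 * f x.2) ^ 2) =O[lf S]
      (fun x => x.1 ^ 0) :=
    bigO_cont' hS (R := fun x : ℝ × α => 1 - N * (x.1 * f x.2) + A2 * (x.1 * f x.2) ^ 2)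
      (by fun_prop) (fun x => by ring)
  have hD := bigO_mul_sub hR0 hW0 hc2 hc1
  have hD1 : (fun x : ℝ × α => R x * W x - 1) =O[lf S] (fun x => x.1 ^ 1) := by
    have h2 := bigO_cont hS (k := 1) (R := fun x : ℝ × α =>
      (- N * f x.2 + A2 * x.1 * f x.2 ^ 2) * (1 + 2 / 3 * (x.1 * f x.2) + w2 x.2 * x.1 ^ 2) +
      2 / 3 * f x.2 + w2 x.2 * x.1) (by fun_prop)
    refine ((bigO_mono hD (show 1 ≤ 3 by norm_num)).add h2).congr_left ?_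
    intro x
    ring
  have hinv := bigO_inv hD1
  obtain ⟨e2, he2⟩ : ∃ e2 : α → ℝ, e2 = fun a => -(N * (3 * N - 2) / 6) * f a ^ 2 +
        g a ^ 2 / (18 * N) + (3 * N + 2) / 18 - 1 / (18 * N) := ⟨_, rfl⟩
  have he2c : Continuous e2 := by rw [he2]; fun_prop
  have hE0 : (fun x : ℝ × α => 1 - N * (x.1 * f x.2) + x.1 ^ 2 * e2 x.2) =O[lf S]
      (fun x => x.1 ^ 0) :=
    bigO_cont' hS (R := fun x : ℝ × α => 1 - N * (x.1 * f x.2) + x.1 ^ 2 * e2 x.2)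
      (by fun_prop) (fun x => by ring)
  obtain ⟨d2, hd2⟩ : ∃ d2 : α → ℝ, d2 = fun a => (A2 - 2 * N / 3) * f a ^ 2 + w2 a := ⟨_, rfl⟩
  obtain ⟨d3, hd3⟩ : ∃ d3 : α → ℝ, d3 = fun a => 2 / 3 * A2 * f a ^ 3 - N * f a * w2 a := ⟨_, rfl⟩
  obtain ⟨d4, hd4⟩ : ∃ d4 : α → ℝ, d4 = fun a => A2 * f a ^ 2 * w2 a := ⟨_, rfl⟩
  have hd2c : Continuous d2 := by rw [hd2]; fun_prop
  have hd3c : Continuous d3 := by rw [hd3]; fun_prop
  have hd4c : Continuous d4 := by rw [hd4]; fun_prop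
  -- K - D E0
  have hK : (fun x : ℝ × α => (1 - (3 * N - 1) / 3 * (x.1 * f x.2)) ^ 2 -
      R x * W x * (1 - N * (x.1 * f x.2) + x.1 ^ 2 * e2 x.2)) =O[lf S] (fun x => x.1 ^ 3) := by
    have h1 := hD.mul hE0
    have h3 : (fun x : ℝ × α => x.1 ^ 3 * x.1 ^ 0) = fun x => x.1 ^ 3 := by
      funext x; simp
    rw [h3] at h1
    have h4 := bigO_cont hS (k := 3) (R := fun x : ℝ × α =>
      -((d3 x.2 - N * f x.2 * d2 x.2 + e2 x.2 * (2 / 3 - N) * f x.2) +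
        x.1 * (d4 x.2 - N * f x.2 * d3 x.2 + e2 x.2 * d2 x.2) +
        x.1 ^ 2 * (- N * f x.2 * d4 x.2 + e2 x.2 * d3 x.2) + x.1 ^ 3 * (e2 x.2 * d4 x.2)))
      (by fun_prop)
    refine (h4.sub h1).congr_left ?_
    intro x
    have k : ((3 * N - 1) / 3) ^ 2 * f x.2 ^ 2 = (A2 - 2 * N / 3 - N * (2 / 3 - N)) * f x.2 ^ 2 +
        w2 x.2 + e2 x.2 := by
      rw [hw2, he2, hA2]
      field_simp
      ring
    rw [hd2, hd3, hd4]
    linear_combination (-x.1 ^ 2) * k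
  have hDt : ∀ᶠ x in lf S, R x * W x ≠ 0 := by
    have h1 : Tendsto (fun x : ℝ × α => x.1 ^ 1) (lf S) (𝓝 0) := by
      simpa using tendsto_lf (S := S)
    have h2 : Tendsto (fun x => R x * W x - 1) (lf S) (𝓝 0) := hD1.trans_tendsto h1
    have h3 : Tendsto (fun x => R x * W x) (lf S) (𝓝 1) := by
      have := h2.add_const 1
      simpa using this
    exact h3.eventually_ne one_ne_zero
  have h6 := (hK.mul hinv)
  have h7 : (fun x : ℝ × α => x.1 ^ 3 * x.1 ^ 0) = fun x => x.1 ^ 3 := by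
    funext x; simp
  rw [h7] at h6
  have h8 := (isBigO_refl (fun x : ℝ × α => x.1 ^ 2) (lf S)).mul h6
  have h9 : (fun x : ℝ × α => x.1 ^ 2 * x.1 ^ 3) = fun x => x.1 ^ 5 := by
    funext x; ring
  rw [h9] at h8
  refine h8.congr' ?_ (EventuallyEq.refl _ _)
  filter_upwards [hDt] with x hx
  have eW : W x = (((1 + A2 * x.1 ^ 2 +
      θ x.2 * x.1 ^ 3) * qQ x.1 (g x.2)) ^ (-(1 / N)) +
        2 * qP N x.1 (f x.2) ^ (-(1 / (N - 1)))) / 3 := by rw [hW, hA2]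
  have eR : R x = qP N x.1 (f x.2) ^ (N / (N - 1)) := by rw [hR]
  rw [← hA2, ← eW, ← eR]
  have e0 : (1 - N * x.1 * f x.2 + x.1 ^ 2 * (-(N * (3 * N - 2) / 6) * f x.2 ^ 2 +
        g x.2 ^ 2 / (18 * N) + (3 * N + 2) / 18 - 1 / (18 * N))) =
        1 - N * (x.1 * f x.2) + x.1 ^ 2 * e2 x.2 := by rw [he2]; ring
  rw [e0, div_eq_mul_inv]
  have e3 : R x * W x * (R x * W x)⁻¹ = 1 := mul_inv_cancel₀ hx
  linear_combination (-x.1 ^ 2 * (1 - N * (x.1 * f x.2) + x.1 ^ 2 * e2 x.2)) * e3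

end H84FC
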